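import Pool.Agent.W823.QT.Stm

/-!
# Project QT: part RENB
-/

set_option autoImplicit false

namespace Pool.Agent.W797.QTRENB

open MeasureTheory ProbabilityTheory Filter Topology Pool.Agent.W845.Traps
open Pool.Agent.W823.QT
open scoped ENNReal NNReal

variable {d : ℕ}

theorem mem_arcs {n : ℕ} {e : ℕ × ℕ} : e ∈ arcs n ↔ e.1 < e.2 ∧ e.2 ≤ n := by
  unfold arcs
  simp only [Finset.mem_filter, Finset.mem_product, Finset.mem_range]
  omega

theorem pos_congr {a b : ℕ → Fin d → ℤ} {k : ℕ} (h : ∀ i < k, a i = b i) : pos a k = pos b k := by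
  unfold pos
  exact Finset.sum_congr rfl fun i hi => h i (Finset.mem_range.1 hi)

theorem aw_congr {η : ℕ → (ℕ → Fin d → ℤ) → ℝ≥0∞} (hη : Loc η) {n : ℕ} {a b : ℕ → Fin d → ℤ}
    (h : ∀ i < n, a i = b i) {e : ℕ × ℕ} (he : e ∈ arcs n) : aw η a e = aw η b e := by
  unfold aw
  apply hη
  intro k hk
  apply pos_congr
  intro i hi
  unfold sh
  rw [mem_arcs] at he
  exact h _ (by omega)

theorem aw_shift (η : ℕ → (ℕ → Fin d → ℤ) → ℝ≥0∞) (a : ℕ → Fin d → ℤ) (l : ℕ) (e : ℕ × ℕ) :
    aw η a (e.1 + l, e.2 + l) = aw η (sh l a) e := by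
  unfold aw
  have h1 : e.2 + l - (e.1 + l) = e.2 - e.1 := by omega
  have h2 : sh (e.1 + l) a = sh e.1 (sh l a) := by
    funext i
    unfold sh
    congr 1
    omega
  simp only [h1, h2]

theorem V_congr {η : ℕ → (ℕ → Fin d → ℤ) → ℝ≥0∞} (hη : Loc η) {n : ℕ} {a b : ℕ → Fin d → ℤ}
    (h : ∀ i < n, a i = b i) : V η n a = V η n b := by
  unfold V
  exact Finset.prod_congr rfl fun e he => by rw [aw_congr hη h he]

theorem kk_congr {w w' : ℕ × ℕ → ℝ≥0∞} {l : ℕ} (h : ∀ e ∈ arcs l, w e = w' e) :
    kk w l = kk w' l := by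
  unfold kk wsum
  refine Finset.sum_congr rfl fun S hS => ?_
  congr 1
  exact Finset.prod_congr rfl fun e he => h e (Finset.mem_powerset.1 hS he)

theorem ren (hR : REN_T) (η : ℕ → (ℕ → Fin d → ℤ) → ℝ≥0∞) (n : ℕ) (hn : 1 ≤ n)
    (a : ℕ → Fin d → ℤ) :
    V η n a = ∑ l ∈ Finset.Icc 1 n, kk (aw η a) l * V η (n - l) (sh l a) := by
  have := hR (aw η a) n hn
  unfold V
  rw [this]
  refine Finset.sum_congr rfl fun l _ => ?_
  congr 1
  refine Finset.prod_congr rfl fun e _ => ?_
  rw [aw_shift]

/-- flip of the first `l` steps -/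
def flp (l : ℕ) (a : ℕ → Fin d → ℤ) : ℕ → Fin d → ℤ := fun i => if i < l then -(a i) else a i

theorem pos_flp (l k : ℕ) (hk : k ≤ l) (a : ℕ → Fin d → ℤ) : pos (flp l a) k = - pos a k := by
  unfold pos
  rw [← Finset.sum_neg_distrib]
  refine Finset.sum_congr rfl fun i hi => ?_
  unfold flp
  rw [if_pos (lt_of_lt_of_le (Finset.mem_range.1 hi) hk)]

theorem aw_flp {η : ℕ → (ℕ → Fin d → ℤ) → ℝ≥0∞} (hη : Loc η) (hs : SymW η) {l : ℕ}
    (a : ℕ → Fin d → ℤ) {e : ℕ × ℕ} (he : e ∈ arcs l) : aw η (flp l a) e = aw η a e := by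
  unfold aw
  rw [← hs (e.2 - e.1) (pos (sh e.1 a))]
  apply hη
  intro k hk
  rw [mem_arcs] at he
  unfold pos
  rw [← Finset.sum_neg_distrib]
  refine Finset.sum_congr rfl fun i hi => ?_
  have hi' := Finset.mem_range.1 hi
  unfold sh flp
  rw [if_pos (by omega)]

theorem sq_add (u v : ℤ) : W823.QT.sq (u + v) + W823.QT.sq (-u + v) = 2 * (W823.QT.sq u + W823.QT.sq v) := by
  unfold W823.QT.sq
  rw [← ENNReal.ofReal_add (by positivity) (by positivity),
    ← ENNReal.ofReal_add (by positivity) (by positivity)]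
  have h2 : (2 : ℝ≥0∞) = ENNReal.ofReal 2 := by simp
  rw [h2, ← ENNReal.ofReal_mul (by norm_num)]
  congr 1
  push_cast
  ring

theorem pos_add (a : ℕ → Fin d → ℤ) (l n : ℕ) (h : l ≤ n) (i : Fin d) :
    pos a n i = pos a l i + pos (sh l a) (n - l) i := by
  obtain ⟨m, rfl⟩ := Nat.exists_eq_add_of_le h
  have : pos a (l + m) = pos a l + pos (sh l a) m := by
    unfold pos sh
    rw [Finset.sum_range_add]
  rw [this, Nat.add_sub_cancel_left]
  rfl

theorem V_sh_congr {η : ℕ → (ℕ → Fin d → ℤ) → ℝ≥0∞} (hη : Loc η) {n l : ℕ}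
    {a b : ℕ → Fin d → ℤ} (h : ∀ i < n, a i = b i) :
    V η (n - l) (sh l a) = V η (n - l) (sh l b) := by
  apply V_congr hη
  intro i hi
  unfold sh
  exact h _ (by omega)

/-- the second moment of the sum -/
theorem second (h1 : MEAS_T) (h3 : FLIP_T) (q : Measure (Fin d → ℤ)) [IsProbabilityMeasure q]
    (hq : q.map (fun x => -x) = q) {η : ℕ → (ℕ → Fin d → ℤ) → ℝ≥0∞} (hη : Loc η) (hs : SymW η)
    (i : Fin d) (l m : ℕ) :
    ∫⁻ a, ∫⁻ b, kk (aw η a) l * V η m b * W823.QT.sq (pos a l i + pos b m i) ∂(iid q) ∂(iid q) =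
      (∫⁻ a, kk (aw η a) l * W823.QT.sq (pos a l i) ∂(iid q)) * (∫⁻ b, V η m b ∂(iid q)) +
      (∫⁻ a, kk (aw η a) l ∂(iid q)) * ∫⁻ b, V η m b * W823.QT.sq (pos b m i) ∂(iid q) := by
  have mK : Measurable fun a : ℕ → Fin d → ℤ => kk (aw η a) l :=
    h1 d l _ fun a b h => kk_congr fun e he => aw_congr hη h he
  have mV : Measurable fun a : ℕ → Fin d → ℤ => V η m a :=
    h1 d m _ fun a b h => V_congr hη h
  have mS : ∀ m, Measurable fun a : ℕ → Fin d → ℤ => W823.QT.sq (pos a m i) := fun m =>
    h1 d m _ fun a b h => by rw [pos_congr h]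
  have mS2 : ∀ x : ℤ, Measurable fun a : ℕ → Fin d → ℤ => W823.QT.sq (x + pos a m i) := fun x =>
    h1 d m _ fun a b h => by rw [pos_congr h]
  set H : (ℕ → Fin d → ℤ) → ℝ≥0∞ := fun a =>
    ∫⁻ b, kk (aw η a) l * V η m b * W823.QT.sq (pos a l i + pos b m i) ∂(iid q) with hH
  have mH : Measurable H := by
    refine h1 d l _ fun a b h => ?_
    have e1 : kk (aw η a) l = kk (aw η b) l := kk_congr fun e he => aw_congr hη h he
    have e2 : pos a l = pos b l := pos_congr h
    simp only [hH, e1, e2]
  have hflip := h3 d q hq l H mH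
  have e1 : ∀ a : ℕ → Fin d → ℤ, H (fun j => if j < l then -(a j) else a j) =
      ∫⁻ b, kk (aw η a) l * V η m b * W823.QT.sq (-(pos a l i) + pos b m i) ∂(iid q) := by
    intro a
    show H (flp l a) = _
    have e1 : kk (aw η (flp l a)) l = kk (aw η a) l := kk_congr fun e he => aw_flp hη hs a he
    have e2 : pos (flp l a) l i = - (pos a l i) := by
      rw [pos_flp l l le_rfl]
      rfl
    simp only [hH, e1, e2]
  simp only [e1] at hflip
  have key : 2 * ∫⁻ a, H a ∂(iid q) = 2 * ((∫⁻ a, kk (aw η a) l * W823.QT.sq (pos a l i) ∂(iid q)) *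
      (∫⁻ b, V η m b ∂(iid q)) +
      (∫⁻ a, kk (aw η a) l ∂(iid q)) * ∫⁻ b, V η m b * W823.QT.sq (pos b m i) ∂(iid q)) := by
    calc 2 * ∫⁻ a, H a ∂(iid q) = ∫⁻ a, H a ∂(iid q) +
          ∫⁻ a, ∫⁻ b, kk (aw η a) l * V η m b * W823.QT.sq (-(pos a l i) + pos b m i) ∂(iid q)
            ∂(iid q) := by rw [hflip, two_mul]
      _ = ∫⁻ a, (H a + ∫⁻ b, kk (aw η a) l * V η m b * W823.QT.sq (-(pos a l i) + pos b m i)
            ∂(iid q)) ∂(iid q) := (lintegral_add_left mH _).symm
      _ = ∫⁻ a, (2 * (kk (aw η a) l * W823.QT.sq (pos a l i) * (∫⁻ b, V η m b ∂(iid q)) +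
            kk (aw η a) l * ∫⁻ b, V η m b * W823.QT.sq (pos b m i) ∂(iid q))) ∂(iid q) := by
          refine lintegral_congr fun a => ?_
          simp only [hH]
          have mm1 : Measurable fun b : ℕ → Fin d → ℤ =>
              kk (aw η a) l * V η m b * W823.QT.sq (pos a l i + pos b m i) :=
            (measurable_const.mul mV).mul (mS2 _)
          have mm2 : Measurable fun b : ℕ → Fin d → ℤ =>
              (2 * (kk (aw η a) l * W823.QT.sq (pos a l i))) * V η m b :=
            measurable_const.mul mV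
          have mm3 : Measurable fun b : ℕ → Fin d → ℤ => V η m b * W823.QT.sq (pos b m i) :=
            mV.mul (mS m)
          rw [← lintegral_add_left mm1]
          have : ∀ b : ℕ → Fin d → ℤ,
              kk (aw η a) l * V η m b * W823.QT.sq (pos a l i + pos b m i) +
              kk (aw η a) l * V η m b * W823.QT.sq (-(pos a l i) + pos b m i) =
              (2 * (kk (aw η a) l * W823.QT.sq (pos a l i))) * V η m b +
                (2 * kk (aw η a) l) * (V η m b * W823.QT.sq (pos b m i)) := by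
            intro b
            rw [← mul_add, sq_add]
            ring
          simp only [this]
          rw [lintegral_add_left mm2, lintegral_const_mul _ mV,
            lintegral_const_mul _ mm3]
          ring
      _ = 2 * ((∫⁻ a, kk (aw η a) l * W823.QT.sq (pos a l i) ∂(iid q)) * (∫⁻ b, V η m b ∂(iid q)) +
      (∫⁻ a, kk (aw η a) l ∂(iid q)) * ∫⁻ b, V η m b * W823.QT.sq (pos b m i) ∂(iid q)) := by
          have mS' : Measurable fun a : ℕ → Fin d → ℤ => W823.QT.sq (pos a l i) :=
            h1 d l _ fun a b h => by rw [pos_congr h]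
          have m1 : Measurable fun a : ℕ → Fin d → ℤ => kk (aw η a) l * W823.QT.sq (pos a l i) :=
            mK.mul mS'
          have m2 : Measurable fun a : ℕ → Fin d → ℤ =>
              kk (aw η a) l * W823.QT.sq (pos a l i) * ∫⁻ b, V η m b ∂(iid q) :=
            m1.mul_const _
          have m3 : Measurable fun a : ℕ → Fin d → ℤ =>
              kk (aw η a) l * W823.QT.sq (pos a l i) * (∫⁻ b, V η m b ∂(iid q)) +
              kk (aw η a) l * ∫⁻ b, V η m b * W823.QT.sq (pos b m i) ∂(iid q) :=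
            m2.add (mK.mul_const _)
          rw [lintegral_const_mul _ m3, lintegral_add_left m2,
            lintegral_mul_const _ m1, lintegral_mul_const _ mK]
  exact (ENNReal.mul_right_inj (by norm_num) (by norm_num)).1 key

theorem main (h1 : MEAS_T) (h2 : MARK_T) (h3 : FLIP_T) (h4 : REN_T) : RENB_T := by
  intro d q _ hq η hη hs i n hn
  have : IsProbabilityMeasure (iid q) := by
    unfold iid
    infer_instance
  have mK : ∀ l, Measurable fun a : ℕ → Fin d → ℤ => kk (aw η a) l := fun l =>
    h1 d l _ fun a b h => kk_congr fun e he => aw_congr hη h he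
  have mV : ∀ m, Measurable fun a : ℕ → Fin d → ℤ => V η m a := fun m =>
    h1 d m _ fun a b h => V_congr hη h
  constructor
  · unfold A
    simp only [ren h4 η n hn]
    rw [lintegral_finsetSum]
    · refine Finset.sum_congr rfl fun l _ => ?_
      have := h2 d q l (fun a b => kk (aw η a) l * V η (n - l) b)
        (((mK l).comp measurable_fst).mul ((mV (n - l)).comp measurable_snd))
        (fun a a' b h => by
          show kk (aw η a) l * _ = kk (aw η a') l * _
          rw [kk_congr fun e he => aw_congr hη h he])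
      rw [this]
      simp only [lintegral_const_mul _ (mV (n - l))]
      rw [lintegral_mul_const _ (mK l)]
    · intro l _
      exact (mK l).mul (h1 d n _ fun a b h => V_sh_congr hη h)
  · have e1 : ∀ a : ℕ → Fin d → ℤ, V η n a * W823.QT.sq (pos a n i) = ∑ l ∈ Finset.Icc 1 n,
        kk (aw η a) l * V η (n - l) (sh l a) *
          W823.QT.sq (pos a l i + pos (sh l a) (n - l) i) := by
      intro a
      rw [ren h4 η n hn, Finset.sum_mul]
      refine Finset.sum_congr rfl fun l hl => ?_
      rw [pos_add a l n (Finset.mem_Icc.1 hl).2 i]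
    simp only [e1]
    rw [lintegral_finsetSum]
    · refine Finset.sum_congr rfl fun l _ => ?_
      have mF : Measurable (Function.uncurry fun a b : ℕ → Fin d → ℤ =>
          kk (aw η a) l * V η (n - l) b * W823.QT.sq (pos a l i + pos b (n - l) i)) := by
        refine (((mK l).comp measurable_fst).mul ((mV (n - l)).comp measurable_snd)).mul ?_
        have m1 : Measurable fun a : ℕ → Fin d → ℤ => pos a l i := by
          unfold pos
          simp only [Finset.sum_apply]
          fun_prop
        have m2 : Measurable fun a : ℕ → Fin d → ℤ => pos a (n - l) i := by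
          unfold pos
          simp only [Finset.sum_apply]
          fun_prop
        have m3 : Measurable (fun z : ℤ => W823.QT.sq z) := measurable_of_countable _
        exact m3.comp ((m1.comp measurable_fst).add (m2.comp measurable_snd))
      have := h2 d q l (fun a b => kk (aw η a) l * V η (n - l) b *
          W823.QT.sq (pos a l i + pos b (n - l) i)) mF
        (fun a a' b h => by
          show kk (aw η a) l * V η (n - l) b * W823.QT.sq (pos a l i + pos b (n - l) i) =
            kk (aw η a') l * V η (n - l) b * W823.QT.sq (pos a' l i + pos b (n - l) i)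
          rw [kk_congr fun e he => aw_congr hη h he, pos_congr h])
      rw [this, second h1 h3 q hq hη hs i l (n - l)]
      rfl
    · intro l hl
      refine h1 d n _ fun a b h => ?_
      have hl2 := (Finset.mem_Icc.1 hl).2
      have hl' : ∀ j < l, a j = b j := fun j hj => h j (by omega)
      rw [kk_congr fun e he => aw_congr hη hl' he, pos_congr hl', V_sh_congr hη h]
      have : pos (sh l a) (n - l) = pos (sh l b) (n - l) := pos_congr fun j hj => by
        unfold sh
        exact h _ (by omega)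
      rw [this]

end Pool.Agent.W797.QTRENB
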