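import Pool.Agent.Helper960.Rou.Fin2

/-!
Transfer of the counterexample to the rough property in `W^{1,1}` (Cauchy-Riemann operator in the
plane) from `Fin 2 → ℝ` to `EuclideanSpace ℝ (Fin 2)`.
-/

open MeasureTheory Filter Topology
open scoped ContDiff

namespace Pool.Agent.W797.Rough

open Pool.Agent.Helper960.Rou

/-- Euclidean plane -/
abbrev E2 : Type := EuclideanSpace ℝ (Fin 2)

/-- the identification -/
noncomputable def L : E2 ≃L[ℝ] Rn 2 := EuclideanSpace.equiv (Fin 2) ℝ

lemma L_apply (x : E2) : L x = x.ofLp := rfl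

lemma mp_L : MeasurePreserving (L : E2 → Rn 2) volume volume := PiLp.volume_preserving_ofLp (Fin 2)

lemma mp_Ls : MeasurePreserving (L.symm : Rn 2 → E2) volume volume := PiLp.volume_preserving_toLp (Fin 2)

lemma me_L : MeasurableEmbedding (L : E2 → Rn 2) := L.toHomeomorph.measurableEmbedding

lemma me_Ls : MeasurableEmbedding (L.symm : Rn 2 → E2) := L.symm.toHomeomorph.measurableEmbedding

lemma int_L (f : Rn 2 → ℂ) : ∫ x, f (L x) = ∫ y, f y := mp_L.integral_comp me_L f

lemma int_Ls (f : E2 → ℂ) : ∫ x, f (L.symm x) = ∫ y, f y := mp_Ls.integral_comp me_Ls f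

lemma L_single (i : Fin 2) : L (EuclideanSpace.single i (1:ℝ)) = Pi.single i 1 := by
  ext j
  simp [L_apply, Pi.single_apply]

lemma fd_L (f : Rn 2 → ℂ) (i : Fin 2) (x : E2) :
    fderiv ℝ (fun z => f (L z)) x (EuclideanSpace.single i (1:ℝ)) = pd i f (L x) := by
  have h := L.comp_right_fderiv (f := f) (x := x)
  have e : (f ∘ L) = fun z => f (L z) := rfl
  rw [← e, h]
  show fderiv ℝ f (L x) (L (EuclideanSpace.single i (1:ℝ))) = _
  rw [L_single]
  rfl

lemma locInt_L {f : Rn 2 → ℂ} (hf : LocallyIntegrable f volume) :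
    LocallyIntegrable (fun x : E2 => f (L x)) volume := by
  rw [locallyIntegrable_iff] at hf ⊢
  intro k hk
  have h1 := hf _ (hk.image L.continuous)
  have h2 := (mp_L.integrableOn_image (f := f) (s := k) me_L).1 h1
  exact h2

lemma locInt_Ls {f : E2 → ℂ} (hf : LocallyIntegrable f volume) :
    LocallyIntegrable (fun x : Rn 2 => f (L.symm x)) volume := by
  rw [locallyIntegrable_iff] at hf ⊢
  intro k hk
  have h1 := hf _ (hk.image L.symm.continuous)
  have h2 := (mp_Ls.integrableOn_image (f := f) (s := k) me_Ls).1 h1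
  exact h2

/-- the multiindex of a word -/
def mi (l : List (Fin 2)) : Fin 2 → ℕ := fun i => l.count i

/-- the word of a multiindex -/
def wd (α : Fin 2 → ℕ) : List (Fin 2) := List.replicate (α 0) 0 ++ List.replicate (α 1) 1

lemma wd_mi (l : List (Fin 2)) (hl : l.length ≤ 1) : wd (mi l) = l := by
  match l, hl with
  | [], _ => simp [wd, mi]
  | [i], _ => fin_cases i <;> simp [wd, mi]

lemma wd_length (α : Fin 2 → ℕ) : (wd α).length = ∑ i, α i := by
  simp [wd, Fin.sum_univ_two]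

lemma mi_wd (α : Fin 2 → ℕ) : mi (wd α) = α := by
  funext i
  fin_cases i <;> simp [mi, wd, List.count_replicate]

lemma mi_sum (l : List (Fin 2)) (hl : l.length ≤ 1) : ∑ i, mi l i = l.length := by
  rw [← wd_length, wd_mi l hl]

/-- the multiindex derivatives of the frozen statement -/
noncomputable def DE (α : Fin 2 → ℕ) (φ : E2 → ℂ) : E2 → ℂ :=
  (List.finRange 2).foldr
        (fun i ψ => (fun χ : EuclideanSpace ℝ (Fin 2) → ℂ =>
            fun x => fderiv ℝ χ x (EuclideanSpace.single i (1 : ℝ)))^[α i] ψ) φ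

lemma DE_eq (α : Fin 2 → ℕ) (φ : E2 → ℂ) : DE α φ =
    (fun χ : E2 → ℂ => fun x => fderiv ℝ χ x (EuclideanSpace.single 0 (1 : ℝ)))^[α 0]
    ((fun χ : E2 → ℂ => fun x => fderiv ℝ χ x (EuclideanSpace.single 1 (1 : ℝ)))^[α 1] φ) := by
  unfold DE
  have : List.finRange 2 = [0, 1] := by decide
  rw [this]
  rfl

lemma it_pd (i : Fin 2) (k : ℕ) (ψ : Rn 2 → ℂ) :
    (fun χ : E2 → ℂ => fun x => fderiv ℝ χ x (EuclideanSpace.single i (1 : ℝ)))^[k]
      (fun x => ψ (L x)) = fun x => D (List.replicate k i) ψ (L x) := by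
  induction k with
  | zero => rfl
  | succ k ih =>
    rw [Function.iterate_succ', Function.comp_apply, ih]
    funext x
    exact fd_L _ i x

lemma D_append (l₁ l₂ : List (Fin 2)) (ψ : Rn 2 → ℂ) : D (l₁ ++ l₂) ψ = D l₁ (D l₂ ψ) := by
  induction l₁ with
  | nil => rfl
  | cons i l ih =>
    show pd i (D (l ++ l₂) ψ) = pd i (D l (D l₂ ψ))
    rw [ih]

lemma DE_wd (α : Fin 2 → ℕ) (ψ : Rn 2 → ℂ) :
    DE α (fun x => ψ (L x)) = fun x => D (wd α) ψ (L x) := by
  rw [DE_eq, it_pd, it_pd]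
  funext x
  rw [wd, D_append]

lemma DE_wd' (α : Fin 2 → ℕ) (φ : E2 → ℂ) (x : E2) :
    DE α φ x = D (wd α) (fun y => φ (L.symm y)) (L x) := by
  have h := DE_wd α (fun y => φ (L.symm y))
  have e : (fun x => (fun y => φ (L.symm y)) (L x)) = φ := by
    funext x; simp
  rw [e] at h
  rw [h]

/-- the coefficients of the Cauchy-Riemann operator, indexed by words -/
noncomputable def cw (a : Fin 1 → Fin 2) : ℂ := if a 0 = 0 then 1 else Complex.I

/-- the coefficients of the Cauchy-Riemann operator, indexed by multiindices -/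
noncomputable def cm (β : Fin 2 → Fin 2) : ℂ :=
  if β = ![1, 0] then 1 else if β = ![0, 1] then Complex.I else 0

lemma sum_words (F : (Fin 1 → Fin 2) → ℂ) :
    ∑ a : Fin 1 → Fin 2, cw a * F a = F (fun _ => 0) + Complex.I * F (fun _ => 1) := by
  rw [← (Equiv.funUnique (Fin 1) (Fin 2)).symm.sum_comp]
  rw [Fin.sum_univ_two]
  simp only [cw, Equiv.funUnique_symm_apply]
  simp
  rfl

lemma sum_multi (F : (Fin 2 → Fin 2) → ℂ) :
    ∑ β : Fin 2 → Fin 2, cm β * F β = F ![1, 0] + Complex.I * F ![0, 1] := by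
  have h : (Finset.univ : Finset (Fin 2 → Fin 2)) = {![0,0], ![1,0], ![0,1], ![1,1]} := by decide
  rw [h]
  rw [Finset.sum_insert (by decide), Finset.sum_insert (by decide), Finset.sum_insert (by decide),
    Finset.sum_singleton]
  have h1 : cm ![0,0] = 0 := by
    unfold cm
    rw [if_neg (by decide), if_neg (by decide)]
  have h2 : cm ![1,0] = 1 := by
    unfold cm
    rw [if_pos rfl]
  have h3 : cm ![0,1] = Complex.I := by
    unfold cm
    rw [if_neg (by decide), if_pos rfl]
  have h4 : cm ![1,1] = 0 := by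
    unfold cm
    rw [if_neg (by decide), if_neg (by decide)]
  rw [h1, h2, h3, h4]
  ring

lemma sq_eq_zero_of (a b : ℝ) (h : (a : ℂ) + Complex.I * (b : ℂ) = 0) : a = 0 ∧ b = 0 := by
  have h1 := congrArg Complex.re h
  have h2 := congrArg Complex.im h
  simp at h1 h2
  exact ⟨h1, h2⟩

lemma elliptic_cw : Elliptic (n := 2) (p := 1) cw := by
  intro ξ hξ h
  have h2 := sum_words (fun a => ∏ j, (ξ (a j) : ℂ))
  rw [h2] at h
  simp at h
  obtain ⟨h3, h4⟩ := sq_eq_zero_of _ _ h
  apply hξ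
  funext i
  fin_cases i
  · exact h3
  · exact h4

lemma elliptic_cm (ξ : Fin 2 → ℝ) (hξ : ξ ≠ 0) :
    ∑ β : Fin 2 → Fin (1 + 1), cm β * ∏ i, ((ξ i : ℂ) ^ (β i : ℕ)) ≠ 0 := by
  intro h
  have h2 := sum_multi (fun β => ∏ i, ((ξ i : ℂ) ^ (β i : ℕ)))
  rw [h2] at h
  simp [Fin.prod_univ_two] at h
  obtain ⟨h3, h4⟩ := sq_eq_zero_of _ _ h
  apply hξ
  funext i
  fin_cases i
  · exact h3
  · exact h4

lemma opP_cw (f : Rn 2 → ℂ) (x : Rn 2) :
    opP (p := 1) cw f x = pd 0 f x + Complex.I * pd 1 f x := by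
  unfold opP
  rw [sum_words (fun a => D (List.ofFn a) f x)]
  rfl

lemma DE_cm (f : Rn 2 → ℂ) (x : E2) :
    ∑ β : Fin 2 → Fin (1 + 1), cm β * DE (fun i => (β i : ℕ)) (fun y => f (L y)) x =
      opP (p := 1) cw f (L x) := by
  rw [opP_cw, sum_multi (fun β => DE (fun i => (β i : ℕ)) (fun y => f (L y)) x)]
  rw [DE_wd, DE_wd]
  rfl

lemma DE_cm' (f : E2 → ℂ) (x : E2) :
    ∑ β : Fin 2 → Fin (1 + 1), cm β * DE (fun i => (β i : ℕ)) f x =
      opP (p := 1) cw (fun y => f (L.symm y)) (L x) := by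
  have h := DE_cm (fun y => f (L.symm y)) x
  have e : (fun x => (fun y => f (L.symm y)) (L x)) = f := by
    funext x; simp
  rw [← h]
  simp only [ContinuousLinearEquiv.symm_apply_apply]


lemma smooth_L {f : Rn 2 → ℂ} (hf : ContDiff ℝ ∞ f) : ContDiff ℝ ∞ (fun x : E2 => f (L x)) :=
  hf.comp L.contDiff

lemma smooth_Ls {f : E2 → ℂ} (hf : ContDiff ℝ ∞ f) : ContDiff ℝ ∞ (fun x : Rn 2 => f (L.symm x)) :=
  hf.comp L.symm.contDiff

lemma hcs_L {f : Rn 2 → ℂ} (hf : HasCompactSupport f) : HasCompactSupport (fun x : E2 => f (L x)) :=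
  hf.comp_homeomorph L.toHomeomorph

lemma hcs_Ls {f : E2 → ℂ} (hf : HasCompactSupport f) :
    HasCompactSupport (fun x : Rn 2 => f (L.symm x)) :=
  hf.comp_homeomorph L.symm.toHomeomorph

/-- weak derivatives in the two formulations -/
lemma weak_iff (α : Fin 2 → ℕ) (f g : E2 → ℂ) :
    (∀ φ : E2 → ℂ, ContDiff ℝ (⊤ : ℕ∞) φ → HasCompactSupport φ →
        ∫ x, g x * φ x = (-1 : ℂ) ^ (∑ i, α i) * ∫ x, f x * DE α φ x) ↔
    IsWeakD (wd α) (fun y => f (L.symm y)) (fun y => g (L.symm y)) := by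
  constructor
  · intro h φ hφ hc
    have h1 := h (fun x => φ (L x)) (smooth_L hφ) (hcs_L hc)
    rw [DE_wd] at h1
    have e1 : ∫ x, g x * φ (L x) = ∫ y, g (L.symm y) * φ y := by
      rw [← int_L (fun y => g (L.symm y) * φ y)]
      simp
    have e2 : ∫ x, f x * D (wd α) φ (L x) = ∫ y, f (L.symm y) * D (wd α) φ y := by
      rw [← int_L (fun y => f (L.symm y) * D (wd α) φ y)]
      simp
    rw [e1, e2] at h1
    rw [h1, wd_length, ← mul_assoc, ← pow_add, Even.neg_one_pow ⟨_, rfl⟩, one_mul]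
  · intro h φ hφ hc
    have h1 := h (fun x => φ (L.symm x)) (smooth_Ls hφ) (hcs_Ls hc)
    have e1 : ∫ x, g x * φ x = ∫ y, g (L.symm y) * φ (L.symm y) :=
      (int_Ls (fun y => g y * φ y)).symm
    have e2 : ∫ x, f x * DE α φ x =
        ∫ y, f (L.symm y) * D (wd α) (fun x => φ (L.symm x)) y := by
      rw [← int_L (fun y => f (L.symm y) * D (wd α) (fun x => φ (L.symm x)) y)]
      congr 1
      funext x
      rw [DE_wd']
      simp
    rw [e1, e2, h1, wd_length, ← mul_assoc, ← pow_add, Even.neg_one_pow ⟨_, rfl⟩, one_mul]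

lemma ae_L {P : Rn 2 → Prop} (h : ∀ᵐ y, P y) : ∀ᵐ x : E2, P (L x) :=
  mp_L.quasiMeasurePreserving.ae h

lemma ae_Ls {P : E2 → Prop} (h : ∀ᵐ y, P y) : ∀ᵐ x : Rn 2, P (L.symm x) :=
  mp_Ls.quasiMeasurePreserving.ae h

lemma int_set_L (f : Rn 2 → ℝ) (s : Set (Rn 2)) :
    ∫ x in L ⁻¹' s, f (L x) = ∫ y in s, f y :=
  mp_L.setIntegral_preimage_emb me_L f s

lemma ball_sub (N : ℕ) (x : E2) (hx : L x ∈ Metric.closedBall (0 : Rn 2) N) :
    x ∈ Metric.ball (0 : E2) (2 * N + 1) := by
  rw [mem_closedBall_zero_iff, pi_norm_le_iff_of_nonneg (by positivity)] at hx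
  rw [mem_ball_zero_iff, EuclideanSpace.norm_eq, Fin.sum_univ_two]
  have h0 : ‖x 0‖ ≤ N := hx 0
  have h1 : ‖x 1‖ ≤ N := hx 1
  have hN : (0:ℝ) ≤ N := by positivity
  rw [Real.sqrt_lt' (by positivity)]
  nlinarith [norm_nonneg (x 0), norm_nonneg (x 1), mul_le_mul h0 h0 (norm_nonneg _) hN,
    mul_le_mul h1 h1 (norm_nonneg _) hN]


/-- closure in the quotient from the explicit approximation property -/
theorem key (fW : WSp 2 1) (K : Set (Rn 2)) (hK : MeasurableSet K)
    (h : ∀ R : ℝ, 0 < R → ∀ ε : ℝ, 0 < ε →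
      ∃ u : E2 → ℂ, ContDiff ℝ (⊤ : ℕ∞) u ∧
      ∃ U : Set E2, IsOpen U ∧ (L ⁻¹' K) ⊆ U ∧
        (∀ x ∈ U, ∑ β : Fin 2 → Fin (1 + 1), cm β * DE (fun i => (β i : ℕ)) u x = 0) ∧
      ∃ m : (Fin 2 → ℕ) → E2 → ℂ,
        (∀ α : Fin 2 → ℕ, ∑ i, α i ≤ 1 →
          LocallyIntegrable (m α) volume ∧
          (∀ φ : E2 → ℂ, ContDiff ℝ (⊤ : ℕ∞) φ → HasCompactSupport φ →
            ∫ x, m α x * φ x = (-1 : ℂ) ^ (∑ i, α i) * ∫ x, m 0 x * DE α φ x) ∧
          m α =ᵐ[volume.restrict (L ⁻¹' K)] 0) ∧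
        ∀ α : Fin 2 → ℕ, ∑ i, α i ≤ 1 →
          ∫ x in Metric.ball (0 : E2) R, ‖wD (wd α) fW (L x) - DE α u x - m α x‖ < ε) :
    (Submodule.Quotient.mk fW : WK 2 1 K) ∈ closure (SK (p := 1) cw 1 K) := by
  have hmain : fW ∈ closure {w : WSp 2 1 | (Submodule.Quotient.mk w : WK 2 1 K) ∈ SK (p := 1) cw 1 K} := by
    rw [mem_closure_iff_nhds_basis ((withSeminorms_sn 2 1).hasBasis_ball (x := fW))]
    rintro ⟨S, r⟩ hr
    simp only at hr
    -- the largest radius
    set N : ℕ := S.sup (fun i => i.2) with hN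
    obtain ⟨u, hu, U, hU, hKU, hP, m, hm, happ⟩ := h (2 * N + 1) (by positivity) r hr
    have hmW : (fun y => m 0 (L.symm y)) ∈ Wsub 2 1 := by
      refine ⟨locInt_Ls (hm 0 (by simp)).1, fun l hl => ?_⟩
      have h1 := hm (mi l) (by rw [mi_sum l hl]; exact hl)
      refine ⟨fun y => m (mi l) (L.symm y), locInt_Ls h1.1, ?_⟩
      have h2 := (weak_iff (mi l) (m 0) (m (mi l))).1 h1.2.1
      rwa [wd_mi l hl] at h2
    set mW : WSp 2 1 := ⟨fun y => m 0 (L.symm y), hmW⟩ with hmWd
    set uW : WSp 2 1 := ⟨fun y => u (L.symm y), smooth_mem_W 1 (smooth_Ls hu)⟩ with huWd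
    have hmD : ∀ l : List (Fin 2), l.length ≤ 1 → wD l mW =ᵐ[volume] fun y => m (mi l) (L.symm y) := by
      intro l hl
      have h1 := hm (mi l) (by rw [mi_sum l hl]; exact hl)
      refine wD_unique hl mW (locInt_Ls h1.1) ?_
      have h2 := (weak_iff (mi l) (m 0) (m (mi l))).1 h1.2.1
      rwa [wd_mi l hl] at h2
    have huD : ∀ l : List (Fin 2), l.length ≤ 1 → wD l uW =ᵐ[volume] D l (fun y => u (L.symm y)) := by
      intro l hl
      exact wD_unique hl uW (contDiff_D l (smooth_Ls hu)).continuous.locallyIntegrable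
        (isWeakD_smooth l (smooth_Ls hu))
    have hmN : mW ∈ NK 2 1 K := by
      intro l hl
      have h1 := (hm (mi l) (by rw [mi_sum l hl]; exact hl)).2.2
      rw [EventuallyEq, ae_restrict_iff' (L.continuous.measurable hK)] at h1
      filter_upwards [ae_Ls h1, hmD l hl] with y hy h2 hyK
      rw [h2]
      exact hy (by simpa using hyK)
    refine ⟨uW + mW, ?_, ?_⟩
    · refine ⟨uW, ?_, L.symm ⁻¹' U, hU.preimage L.symm.continuous, ?_, ?_, ?_⟩
      · rw [Submodule.Quotient.eq]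
        have : uW - (uW + mW) = - mW := by abel
        rw [this]
        exact (NK 2 1 K).neg_mem hmN
      · intro y hy
        apply hKU
        simpa using hy
      · exact (smooth_Ls hu).contDiffOn
      · intro y hy
        have h1 := hP (L.symm y) hy
        rw [DE_cm', ContinuousLinearEquiv.apply_symm_apply] at h1
        exact h1
    · rw [Seminorm.mem_ball]
      refine Seminorm.finset_sup_apply_lt hr ?_
      rintro ⟨l, k⟩ hlk
      have hk : k ≤ N := Finset.le_sup (f := fun i : List (Fin 2) × ℕ => i.2) hlk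
      show ∫ y in Metric.closedBall (0 : Rn 2) k, ‖wD l (uW + mW - fW) y‖ < r
      by_cases hl : l.length ≤ 1
      · have e1 : ∫ y in Metric.closedBall (0 : Rn 2) k, ‖wD l (uW + mW - fW) y‖ =
            ∫ y in Metric.closedBall (0 : Rn 2) k,
              ‖wD l fW y - D l (fun z => u (L.symm z)) y - m (mi l) (L.symm y)‖ := by
          refine integral_congr_ae (ae_restrict_of_ae ?_)
          have hsub : uW + mW - fW = (uW + mW) + (-1 : ℂ) • fW := by
            rw [neg_one_smul, sub_eq_add_neg]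
          rw [hsub]
          filter_upwards [wD_add l (uW + mW) ((-1 : ℂ) • fW), wD_add l uW mW, wD_smul l (-1 : ℂ) fW,
            hmD l hl, huD l hl] with y h1 h2 h3 h4 h5
          rw [h1, Pi.add_apply, h2, h3, Pi.add_apply, h4, h5, ← norm_neg]
          congr 1
          simp
          ring
        rw [e1]
        have e2 := happ (mi l) (by rw [mi_sum l hl]; exact hl)
        refine lt_of_le_of_lt ?_ e2
        rw [← int_set_L (fun y => ‖wD l fW y - D l (fun z => u (L.symm z)) y - m (mi l) (L.symm y)‖)]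
        rw [wd_mi l hl]
        have e3 : (fun x : E2 => ‖wD l fW (L x) - D l (fun z => u (L.symm z)) (L x) -
            m (mi l) (L.symm (L x))‖) = fun x => ‖wD l fW (L x) - DE (mi l) u x - m (mi l) x‖ := by
          funext x
          rw [DE_wd', wd_mi l hl]
          simp
        rw [e3]
        refine setIntegral_mono_set ?_ ?_ ?_
        · have hl1 : LocallyIntegrable (fun x : E2 => wD l fW (L x)) volume := locInt_L (wD_locInt l fW)
          have hl2 : LocallyIntegrable (fun x : E2 => DE (mi l) u x) volume := by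
            have h3 := locInt_L (contDiff_D l (smooth_Ls hu)).continuous.locallyIntegrable
            refine h3.congr (Eventually.of_forall fun x => ?_)
            simp only
            rw [DE_wd', wd_mi l hl]
          have hl3 := (hm (mi l) (by rw [mi_sum l hl]; exact hl)).1
          have h4 := (((hl1.sub hl2).sub hl3).integrableOn_isCompact
            (isCompact_closedBall (0 : E2) (2 * (N:ℝ) + 1))).mono_set
              Metric.ball_subset_closedBall
          exact h4.norm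
        · exact Eventually.of_forall fun x => norm_nonneg _
        · refine LE.le.eventuallyLE ?_
          intro x hx
          refine ball_sub N x ?_
          have : (k : ℝ) ≤ N := by exact_mod_cast hk
          exact Metric.closedBall_subset_closedBall this hx
      · have h0 : wD l (uW + mW - fW) = 0 := by simp [wD, hl]
        rw [h0]
        simpa using hr
  have hq : Continuous (fun v : WSp 2 1 => (Submodule.Quotient.mk v : WK 2 1 K)) :=
    continuous_quot_mk
  exact closure_mono (Set.image_subset_iff.2 fun w hw => hw)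
    (image_closure_subset_closure_image hq ⟨fW, hmain, rfl⟩)

end Pool.Agent.W797.Rough
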