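import Pool.Agent.W886.RU.Stm0

/-!
# Project RU: the coding lemma
-/

set_option autoImplicit false

namespace Pool.Agent.W797.RUCODE

open Pool.Agent.W886.RU

theorem two_pow_odd {e e' a a' : ℕ} (h : 2 ^ e * (2 * a + 1) = 2 ^ e' * (2 * a' + 1)) :
    e = e' ∧ a = a' := by
  have key : ∀ {e e' a a' : ℕ}, 2 ^ e * (2 * a + 1) = 2 ^ e' * (2 * a' + 1) → ¬ e < e' := by
    intro e e' a a' h hlt
    obtain ⟨k, rfl⟩ := Nat.exists_eq_add_of_lt hlt
    have h1 : 2 ^ (e + k + 1) * (2 * a' + 1) = 2 ^ e * (2 * (2 ^ k * (2 * a' + 1))) := by ring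
    rw [h1] at h
    have h2 := Nat.eq_of_mul_eq_mul_left (pow_pos (by norm_num) e) h
    omega
  have h1 := key h
  have h2 := key h.symm
  have he : e = e' := by omega
  subst he
  refine ⟨rfl, ?_⟩
  have h3 := Nat.eq_of_mul_eq_mul_left (pow_pos (by norm_num) e) h
  omega

theorem cd_inj {K : ℕ → ℕ} (hK : ∀ e, 1 ≤ K e) {e x e' x' : ℕ} (h : cd K e x = cd K e' x') :
    e = e' ∧ x = x' := by
  unfold cd at h
  obtain ⟨h1, h2⟩ := two_pow_odd h
  subst h1
  refine ⟨rfl, ?_⟩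
  have h3 : x + e + 2 = x' + e + 2 :=
    Nat.pow_left_injective (by have := hK e; omega : K e ≠ 0) h2
  omega

open Classical in
/-- the set -/
noncomputable def mkA (K : ℕ → ℕ) (Q : ℕ → ℕ → (ℕ → Bool) → Prop) (O : ℕ → Bool) (y : ℕ) : Bool :=
  if h : ∃ p : ℕ × ℕ, y = cd K p.1 p.2 then
    decide (Q h.choose.1 h.choose.2 (fun z => if _hz : z < y then mkA K Q O z else false))
  else O y
termination_by y
decreasing_by exact _hz

open Classical in
theorem task : S_CODE := by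
  intro K₀ Q hQ
  choose d hd using hQ
  refine ⟨fun e => max (max K₀ (d e)) 1, fun e => le_max_of_le_left (le_max_left _ _), ?_⟩
  set K : ℕ → ℕ := fun e => max (max K₀ (d e)) 1 with hKdef
  have hK1 : ∀ e, 1 ≤ K e := fun e => le_max_right _ _
  have hKd : ∀ e, d e ≤ K e := fun e => le_max_of_le_left (le_max_right _ _)
  intro O
  refine ⟨mkA K Q O, ?_, ?_⟩
  · intro y hy
    rw [mkA, dif_neg]
    rintro ⟨p, hp⟩
    exact hy p.1 p.2 hp
  · intro e x
    have hex : ∃ p : ℕ × ℕ, cd K e x = cd K p.1 p.2 := ⟨(e, x), rfl⟩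
    have hch := cd_inj hK1 hex.choose_spec
    rw [mkA, dif_pos hex, decide_eq_true_iff, ← hch.1, ← hch.2]
    apply hd
    intro y hy
    have hlt : y < cd K e x := by
      refine lt_of_lt_of_le hy ?_
      have h1 : (x + 2) ^ d e ≤ (x + e + 2) ^ K e :=
        (Nat.pow_le_pow_left (by omega) _).trans (Nat.pow_le_pow_right (by omega) (hKd e))
      unfold cd
      have h2 : 1 ≤ 2 ^ e := Nat.one_le_two_pow
      nlinarith
    rw [dif_pos hlt]

end Pool.Agent.W797.RUCODE
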